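import Pool.Agent.Lib.MP_db21b4_co.Extremal

set_option autoImplicit false

namespace Pool.Agent.Lib.MP_db21b4_co

/-- `O` is an orientation of the graph `G`: it gives each edge of `G` exactly one direction and
relates no other pairs. -/
def IsOrientation {V : Type} (G : SimpleGraph V) (O : V → V → Prop) : Prop :=
  ∀ u v, (G.Adj u v ↔ (O u v ∨ O v u)) ∧ ¬ (O u v ∧ O v u)

section

variable {a b : ℕ}

/-- The join of one vertex with a complete bipartite graph. -/
def apexAdj : Option (Fin a ⊕ Fin b) → Option (Fin a ⊕ Fin b) → Prop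
  | none, some _ => True
  | some _, none => True
  | some (Sum.inl _), some (Sum.inr _) => True
  | some (Sum.inr _), some (Sum.inl _) => True
  | _, _ => False

def apexGraph (a b : ℕ) : SimpleGraph (Option (Fin a ⊕ Fin b)) where
  Adj := apexAdj
  symm := by
    constructor
    intro x y h
    rcases x with _ | x | x <;> rcases y with _ | y | y <;> first | exact trivial | exact h
  loopless := by
    constructor
    intro x h
    rcases x with _ | x | x <;> exact h

/-- Orientation from data. -/
def orient (p : Fin a ⊕ Fin b → Prop) (m : Fin a → Fin b → Prop) :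
    Option (Fin a ⊕ Fin b) → Option (Fin a ⊕ Fin b) → Prop
  | none, some x => ¬ p x
  | some x, none => p x
  | some (Sum.inl x), some (Sum.inr y) => m x y
  | some (Sum.inr y), some (Sum.inl x) => ¬ m x y
  | _, _ => False

theorem orient_isOrientation (p : Fin a ⊕ Fin b → Prop) (m : Fin a → Fin b → Prop) :
    IsOrientation (apexGraph a b) (orient p m) := by
  intro x y
  rcases x with _ | x | x <;> rcases y with _ | y | y <;>
    simp [apexGraph, apexAdj, orient, em, em']

theorem orient_injective (p p' : Fin a ⊕ Fin b → Prop) (m m' : Fin a → Fin b → Prop)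
    (h : orient p m = orient p' m') : p = p' ∧ m = m' := by
  constructor
  · funext x
    exact congrFun (congrFun h (some x)) none
  · funext x y
    exact congrFun (congrFun h (some (Sum.inl x))) (some (Sum.inr y))

/-- The good patterns at the apex. -/
def GoodPat (p : Fin a ⊕ Fin b → Prop) : Prop :=
  (∀ x, ¬ p (Sum.inl x)) ∨ (∀ y, ¬ p (Sum.inr y)) ∨
    ∃ x0 y0, ∀ z, p z ↔ (z = Sum.inl x0 ∨ z = Sum.inr y0)

theorem triangle_none {x y z : Option (Fin a ⊕ Fin b)} (h1 : apexAdj x y) (h2 : apexAdj x z)
    (h3 : apexAdj y z) : x = none ∨ y = none ∨ z = none := by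
  rcases x with _ | x | x
  · exact Or.inl rfl
  · rcases y with _ | y | y
    · exact Or.inr (Or.inl rfl)
    · exact absurd h1 id
    · rcases z with _ | z | z
      · exact Or.inr (Or.inr rfl)
      · exact absurd h2 id
      · exact absurd h3 id
  · rcases y with _ | y | y
    · exact Or.inr (Or.inl rfl)
    · rcases z with _ | z | z
      · exact Or.inr (Or.inr rfl)
      · exact absurd h3 id
      · exact absurd h2 id
    · exact absurd h1 id

theorem three_in {Bv : Fin 5 → Fin 5 → Prop} (hB : IsOrientation bowtie Bv)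
    (h3 : {i | Bv i 0}.ncard = 3) :
    (Bv 1 0 ∧ Bv 2 0 ∧ (Bv 3 0 ∨ Bv 4 0)) ∨ (Bv 3 0 ∧ Bv 4 0 ∧ (Bv 1 0 ∨ Bv 2 0)) := by
  classical
  have h00 : ¬ Bv 0 0 := fun h => (hB 0 0).2 ⟨h, h⟩
  have hcard : (Finset.univ.filter (fun i => Bv i 0)).card = 3 := by
    rw [← h3, ← Set.ncard_coe_finset]
    congr 1
    ext i
    simp
  have hsum : (Finset.univ.filter (fun i => Bv i 0)).card =
      ∑ i : Fin 5, if Bv i 0 then 1 else 0 := by
    rw [Finset.card_filter]
  rw [hsum, Fin.sum_univ_five, if_neg h00] at hcard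
  by_cases h1 : Bv 1 0 <;> by_cases h2 : Bv 2 0 <;> by_cases h3 : Bv 3 0 <;>
    by_cases h4 : Bv 4 0 <;> simp [h1, h2, h3, h4] at hcard ⊢

theorem orient_free {Bv : Fin 5 → Fin 5 → Prop} (hB : IsOrientation bowtie Bv)
    (h3 : {i | Bv i 0}.ncard = 3) (p : Fin a ⊕ Fin b → Prop) (hp : GoodPat p)
    (m : Fin a → Fin b → Prop) :
    ¬ ∃ f : Fin 5 → Option (Fin a ⊕ Fin b), Function.Injective f ∧
      ∀ i j, Bv i j → orient p m (f i) (f j) := by
  rintro ⟨f, hf, hhom⟩
  have hadj : ∀ i j, bowtie.Adj i j → apexAdj (f i) (f j) := by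
    intro i j hij
    have h := (orient_isOrientation p m (f i) (f j)).1
    rcases (hB i j).1.mp hij with h' | h'
    · exact h.mpr (Or.inl (hhom i j h'))
    · exact h.mpr (Or.inr (hhom j i h'))
  have hne : ∀ i j : Fin 5, i ≠ j → f i ≠ f j := fun i j h h' => h (hf h')
  have h0 : f 0 = none := by
    rcases triangle_none (hadj 0 1 (by decide)) (hadj 0 2 (by decide)) (hadj 1 2 (by decide)) with
      h | h | h
    · exact h
    · rcases triangle_none (hadj 0 3 (by decide)) (hadj 0 4 (by decide)) (hadj 3 4 (by decide))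
        with h' | h' | h'
      · exact h'
      · exact absurd (h.trans h'.symm) (hne 1 3 (by decide))
      · exact absurd (h.trans h'.symm) (hne 1 4 (by decide))
    · rcases triangle_none (hadj 0 3 (by decide)) (hadj 0 4 (by decide)) (hadj 3 4 (by decide))
        with h' | h' | h'
      · exact h'
      · exact absurd (h.trans h'.symm) (hne 2 3 (by decide))
      · exact absurd (h.trans h'.symm) (hne 2 4 (by decide))
  have hsome : ∀ i : Fin 5, i ≠ 0 → ∃ x, f i = some x := by
    intro i hi
    rcases hfi : f i with _ | x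
    · exact absurd (hfi.trans h0.symm) (hne i 0 hi)
    · exact ⟨x, rfl⟩
  obtain ⟨x1, h1⟩ := hsome 1 (by decide)
  obtain ⟨x2, h2⟩ := hsome 2 (by decide)
  obtain ⟨x3, h3'⟩ := hsome 3 (by decide)
  obtain ⟨x4, h4⟩ := hsome 4 (by decide)
  have hin : ∀ i x, f i = some x → Bv i 0 → p x := by
    intro i x hx hi
    have h := hhom i 0 hi
    rw [h0, hx] at h
    exact h
  -- the contradiction from a pair and a third vertex
  have key : ∀ (i j k : Fin 5) (x y z : Fin a ⊕ Fin b), f i = some x → f j = some y →
      f k = some z → bowtie.Adj i j → i ≠ k → j ≠ k → p x → p y → p z → False := by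
    intro i j k x y z hi hj hk hij hik hjk hx hy hz
    have hxy := hadj i j hij
    rw [hi, hj] at hxy
    have hxz : z ≠ x := fun h => hne i k hik (by rw [hi, hk, h])
    have hyz : z ≠ y := fun h => hne j k hjk (by rw [hj, hk, h])
    rcases hp with hp | hp | ⟨x0, y0, hp⟩
    · rcases x with x | x
      · exact hp x hx
      · rcases y with y | y
        · exact hp y hy
        · exact hxy
    · rcases x with x | x
      · rcases y with y | y
        · exact hxy
        · exact hp y hy
      · exact hp x hx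
    · rw [hp] at hx hy hz
      have hxyne : x ≠ y := fun h => hne i j hij.ne (by rw [hi, hj, h])
      rcases hx with hx | hx <;> rcases hy with hy | hy <;> rcases hz with hz | hz
      · exact hxyne (hx.trans hy.symm)
      · exact hxyne (hx.trans hy.symm)
      · exact hxz (hz.trans hx.symm)
      · exact hyz (hz.trans hy.symm)
      · exact hyz (hz.trans hy.symm)
      · exact hxz (hz.trans hx.symm)
      · exact hxyne (hx.trans hy.symm)
      · exact hxyne (hx.trans hy.symm)
  rcases three_in hB h3 with ⟨a1, a2, a3 | a3⟩ | ⟨a1, a2, a3 | a3⟩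
  · exact key 1 2 3 x1 x2 x3 h1 h2 h3' (by decide) (by decide) (by decide) (hin 1 x1 h1 a1)
      (hin 2 x2 h2 a2) (hin 3 x3 h3' a3)
  · exact key 1 2 4 x1 x2 x4 h1 h2 h4 (by decide) (by decide) (by decide) (hin 1 x1 h1 a1)
      (hin 2 x2 h2 a2) (hin 4 x4 h4 a3)
  · exact key 3 4 1 x3 x4 x1 h3' h4 h1 (by decide) (by decide) (by decide) (hin 3 x3 h3' a1)
      (hin 4 x4 h4 a2) (hin 1 x1 h1 a3)
  · exact key 3 4 2 x3 x4 x2 h3' h4 h2 (by decide) (by decide) (by decide) (hin 3 x3 h3' a1)
      (hin 4 x4 h4 a2) (hin 2 x2 h2 a3)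

/-- The pattern with prescribed data. -/
def pat : (Fin b → Bool) ⊕ {s : Fin a → Bool // s ≠ fun _ => false} ⊕ (Fin a × Fin b) →
    (Fin a ⊕ Fin b → Prop)
  | Sum.inl t => fun z => match z with
    | Sum.inl _ => False
    | Sum.inr y => t y = true
  | Sum.inr (Sum.inl s) => fun z => match z with
    | Sum.inl x => s.1 x = true
    | Sum.inr _ => False
  | Sum.inr (Sum.inr (x0, y0)) => fun z => z = Sum.inl x0 ∨ z = Sum.inr y0

theorem pat_good (d : (Fin b → Bool) ⊕ {s : Fin a → Bool // s ≠ fun _ => false} ⊕ (Fin a × Fin b)) :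
    GoodPat (pat d) := by
  rcases d with t | s | ⟨x0, y0⟩
  · exact Or.inl (fun x h => h)
  · exact Or.inr (Or.inl (fun x h => h))
  · exact Or.inr (Or.inr ⟨x0, y0, fun z => Iff.rfl⟩)

theorem pat_injective : Function.Injective (pat (a := a) (b := b)) := by
  intro d d' h
  rcases d with t | s | ⟨x0, y0⟩ <;> rcases d' with t' | s' | ⟨x1, y1⟩
  · congr 1
    funext y
    have h1 := congrFun h (Sum.inr y)
    simp only [pat] at h1
    exact Bool.eq_iff_iff.mpr (iff_of_eq h1)
  · exfalso
    apply s'.2
    funext x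
    have h1 := congrFun h (Sum.inl x)
    simp only [pat] at h1
    by_contra hc
    rw [Bool.not_eq_false] at hc
    rw [h1]
    exact hc
  · exfalso
    have h1 := congrFun h (Sum.inl x1)
    simp only [pat, true_or, eq_iff_iff, iff_true] at h1
  · exfalso
    apply s.2
    funext x
    have h1 := congrFun h (Sum.inl x)
    simp only [pat] at h1
    by_contra hc
    rw [Bool.not_eq_false] at hc
    rw [← h1]
    exact hc
  · congr 2
    apply Subtype.ext
    funext x
    have h1 := congrFun h (Sum.inl x)
    simp only [pat] at h1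
    exact Bool.eq_iff_iff.mpr (iff_of_eq h1)
  · exfalso
    have h1 := congrFun h (Sum.inr y1)
    simp only [pat, or_true, eq_iff_iff, iff_true] at h1
  · exfalso
    have h1 := congrFun h (Sum.inl x0)
    simp only [pat, true_or, eq_iff_iff, true_iff] at h1
  · exfalso
    have h1 := congrFun h (Sum.inr y0)
    simp only [pat, or_true, eq_iff_iff, true_iff] at h1
  · have h1 := congrFun h (Sum.inl x0)
    have h2 := congrFun h (Sum.inr y0)
    simp only [pat, or_true, eq_iff_iff, true_iff, Sum.inl.injEq, Sum.inr.injEq,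
      reduceCtorEq, or_false, false_or] at h1 h2
    rw [h1, h2]

theorem card_pat : Nat.card ((Fin b → Bool) ⊕ {s : Fin a → Bool // s ≠ fun _ => false} ⊕
    (Fin a × Fin b)) = 2 ^ b + (2 ^ a - 1 + a * b) := by
  rw [Nat.card_eq_fintype_card, Fintype.card_sum, Fintype.card_sum, Fintype.card_subtype_compl,
    Fintype.card_prod, Fintype.card_fin, Fintype.card_fin]
  simp

end

/-- The count in the join. -/
theorem count_lower (a b n : ℕ) (hn : a + b + 1 = n) (Bv : Fin 5 → Fin 5 → Prop)
    (hB : IsOrientation bowtie Bv) (h3 : {i | Bv i 0}.ncard = 3) :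
    ∃ G : SimpleGraph (Fin n), (2 ^ b + (2 ^ a - 1 + a * b)) * 2 ^ (a * b) ≤
      Nat.card {O : Fin n → Fin n → Prop // IsOrientation G O ∧
        ¬ ∃ f : Fin 5 → Fin n, Function.Injective f ∧ ∀ i j, Bv i j → O (f i) (f j)} := by
  classical
  have hcard : Fintype.card (Option (Fin a ⊕ Fin b)) = n := by
    rw [Fintype.card_option, Fintype.card_sum, Fintype.card_fin, Fintype.card_fin, hn]
  let e : Fin n ≃ Option (Fin a ⊕ Fin b) := (Fintype.equivFinOfCardEq hcard).symm
  refine ⟨(apexGraph a b).comap e, ?_⟩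
  let T := ((Fin b → Bool) ⊕ {s : Fin a → Bool // s ≠ fun _ => false} ⊕ (Fin a × Fin b)) ×
    (Fin a → Fin b → Prop)
  let F : T → {O : Fin n → Fin n → Prop // IsOrientation ((apexGraph a b).comap e) O ∧
        ¬ ∃ f : Fin 5 → Fin n, Function.Injective f ∧ ∀ i j, Bv i j → O (f i) (f j)} := fun t =>
    ⟨fun u v => orient (pat t.1) t.2 (e u) (e v), by
      refine ⟨fun u v => orient_isOrientation (pat t.1) t.2 (e u) (e v), ?_⟩
      rintro ⟨f, hf, hhom⟩
      exact orient_free hB h3 (pat t.1) (pat_good t.1) t.2 ⟨fun i => e (f i),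
        e.injective.comp hf, hhom⟩⟩
  have hF : Function.Injective F := by
    intro t t' h
    have h1 := congrArg Subtype.val h
    have h2 : orient (pat t.1) t.2 = orient (pat t'.1) t'.2 := by
      funext x y
      have h3 := congrFun (congrFun h1 (e.symm x)) (e.symm y)
      simpa [F] using h3
    obtain ⟨h3, h4⟩ := orient_injective _ _ _ _ h2
    exact Prod.ext (pat_injective h3) h4
  have hT : Nat.card T = (2 ^ b + (2 ^ a - 1 + a * b)) * 2 ^ (a * b) := by
    show Nat.card (_ × _) = _
    rw [Nat.card_prod, card_pat]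
    congr 1
    rw [Nat.card_eq_fintype_card]
    simp only [Fintype.card_pi, Fintype.card_prop, Finset.prod_const, Finset.card_univ,
      Fintype.card_fin]
    rw [← pow_mul, mul_comm]
  rw [← hT]
  exact Nat.card_le_card_of_injective F hF

end Pool.Agent.Lib.MP_db21b4_co
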