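import Pool.Agent.Lib.MP_db21b4_co.Turan

set_option autoImplicit false

namespace Pool.Agent.Lib.MP_db21b4_co

open SimpleGraph

theorem five (G : SimpleGraph (Fin 5)) [DecidableRel G.Adj] (hG : bowtie.Free G) :
    G.edgeFinset.card ≤ 7 := by
  by_contra hlt
  push Not at hlt
  have hdeg : ∀ v, G.degree v = ∑ w, (decide (G.Adj v w)).toNat := by
    intro v
    rw [← G.card_neighborFinset_eq_degree, G.neighborFinset_eq_filter, Finset.card_filter]
    apply Finset.sum_congr rfl
    intro w _
    by_cases h : G.Adj v w <;> simp [h]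
  have hsum := G.sum_degrees_eq_twice_card_edges
  simp only [hdeg, Fin.sum_univ_five] at hsum
  have hs : ∀ i j, decide (G.Adj i j) = decide (G.Adj j i) := fun i j => by
    simp only [G.adj_comm]
  have hl : ∀ i, decide (G.Adj i i) = false := fun i => by simp
  rw [hs 1 0, hs 2 0, hs 3 0, hs 4 0, hs 2 1, hs 3 1, hs 4 1, hs 3 2, hs 4 2, hs 4 3] at hsum
  simp only [hl, Bool.toNat_false] at hsum
  have key := base_bool (decide (G.Adj 0 1)) (decide (G.Adj 0 2)) (decide (G.Adj 0 3))
    (decide (G.Adj 0 4)) (decide (G.Adj 1 2)) (decide (G.Adj 1 3)) (decide (G.Adj 1 4))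
    (decide (G.Adj 2 3)) (decide (G.Adj 2 4)) (decide (G.Adj 3 4)) (by omega)
  simp only [Bool.or_eq_true, Bool.and_eq_true, decide_eq_true_eq] at key
  have ne01 : (0 : Fin 5) ≠ 1 := by decide
  have ne02 : (0 : Fin 5) ≠ 2 := by decide
  have ne03 : (0 : Fin 5) ≠ 3 := by decide
  have ne04 : (0 : Fin 5) ≠ 4 := by decide
  have ne12 : (1 : Fin 5) ≠ 2 := by decide
  have ne13 : (1 : Fin 5) ≠ 3 := by decide
  have ne14 : (1 : Fin 5) ≠ 4 := by decide
  have ne23 : (2 : Fin 5) ≠ 3 := by decide
  have ne24 : (2 : Fin 5) ≠ 4 := by decide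
  have ne34 : (3 : Fin 5) ≠ 4 := by decide
  rcases key with ((((⟨⟨⟨⟨a, b⟩, c⟩, d⟩, (⟨e, f⟩ | ⟨e, f⟩) | ⟨e, f⟩⟩ |
    ⟨⟨⟨⟨a, b⟩, c⟩, d⟩, (⟨e, f⟩ | ⟨e, f⟩) | ⟨e, f⟩⟩) |
    ⟨⟨⟨⟨a, b⟩, c⟩, d⟩, (⟨e, f⟩ | ⟨e, f⟩) | ⟨e, f⟩⟩) |
    ⟨⟨⟨⟨a, b⟩, c⟩, d⟩, (⟨e, f⟩ | ⟨e, f⟩) | ⟨e, f⟩⟩) |
    ⟨⟨⟨⟨a, b⟩, c⟩, d⟩, (⟨e, f⟩ | ⟨e, f⟩) | ⟨e, f⟩⟩)
  · exact contains (c := 0) e a b c d f ne13 ne14 ne23 ne24 hG
  · exact contains (c := 0) e a c b d f ne12 ne14 ne23.symm ne34 hG
  · exact contains (c := 0) e a d b c f ne12 ne13 ne24.symm ne34.symm hG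
  · exact contains (c := 1) e a.symm b c d f ne03 ne04 ne23 ne24 hG
  · exact contains (c := 1) e a.symm c b d f ne02 ne04 ne23.symm ne34 hG
  · exact contains (c := 1) e a.symm d b c f ne02 ne03 ne24.symm ne34.symm hG
  · exact contains (c := 2) e a.symm b.symm c d f ne03 ne04 ne13 ne14 hG
  · exact contains (c := 2) e a.symm c b.symm d f ne01 ne04 ne13.symm ne34 hG
  · exact contains (c := 2) e a.symm d b.symm c f ne01 ne03 ne14.symm ne34.symm hG
  · exact contains (c := 3) e a.symm b.symm c.symm d f ne02 ne04 ne12 ne14 hG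
  · exact contains (c := 3) e a.symm c.symm b.symm d f ne01 ne04 ne12.symm ne24 hG
  · exact contains (c := 3) e a.symm d b.symm c.symm f ne01 ne02 ne14.symm ne24.symm hG
  · exact contains (c := 4) e a.symm b.symm c.symm d.symm f ne02 ne03 ne12 ne13 hG
  · exact contains (c := 4) e a.symm c.symm b.symm d.symm f ne01 ne03 ne12.symm ne23 hG
  · exact contains (c := 4) e a.symm d.symm b.symm c.symm f ne01 ne02 ne13.symm ne23.symm hG

/-- Large minimum degree forces a bowtie. -/
theorem min_degree {n : ℕ} (hn : 6 ≤ n) (G : SimpleGraph (Fin n)) [DecidableRel G.Adj]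
    (hG : bowtie.Free G) : ∃ v, G.degree v ≤ n / 2 := by
  classical
  by_contra hdeg
  push Not at hdeg
  -- common neighbours
  have hcommon : ∀ u v, ∃ w, G.Adj u w ∧ G.Adj v w := by
    intro u v
    have h1 : (G.neighborFinset u ∪ G.neighborFinset v).card ≤ n := by
      have := Finset.card_le_univ (G.neighborFinset u ∪ G.neighborFinset v)
      rwa [Fintype.card_fin] at this
    have h2 := Finset.card_union_add_card_inter (G.neighborFinset u) (G.neighborFinset v)
    rw [G.card_neighborFinset_eq_degree, G.card_neighborFinset_eq_degree] at h2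
    have h3 := hdeg u
    have h4 := hdeg v
    have h5 : 0 < (G.neighborFinset u ∩ G.neighborFinset v).card := by omega
    obtain ⟨w, hw⟩ := Finset.card_pos.mp h5
    rw [Finset.mem_inter, G.mem_neighborFinset, G.mem_neighborFinset] at hw
    exact ⟨w, hw⟩
  have hn0 : 0 < n := by omega
  let v : Fin n := ⟨0, hn0⟩
  -- no two disjoint edges in the link
  have hlink : ∀ x a b d e : Fin n, G.Adj x a → G.Adj x b → G.Adj a b → G.Adj x d → G.Adj x e →
      G.Adj d e → a = d ∨ a = e ∨ b = d ∨ b = e := by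
    intro x a b d e h1 h2 h3 h4 h5 h6
    by_contra hc
    push Not at hc
    exact contains h3 h1 h2 h4 h5 h6 hc.1 hc.2.1 hc.2.2.1 hc.2.2.2 hG
  have hpick : ∀ (x : Fin n) (s : Finset (Fin n)), s.card ≤ n / 2 → ∃ w, G.Adj x w ∧ w ∉ s := by
    intro x s hs
    by_contra hc
    push Not at hc
    have h1 : G.neighborFinset x ⊆ s := fun w hw => hc w ((G.mem_neighborFinset x w).mp hw)
    have h2 := Finset.card_le_card h1
    rw [G.card_neighborFinset_eq_degree] at h2
    have := hdeg x
    omega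
  -- the center of the star
  have hcenter : ∃ c, G.Adj v c ∧ ∀ p q, G.Adj v p → G.Adj v q → G.Adj p q → p = c ∨ q = c := by
    obtain ⟨w1, hw1, -⟩ := hpick v ∅ (by simp)
    obtain ⟨t1, ht1v, ht1⟩ := hcommon v w1
    obtain ⟨w2, hw2, hw2'⟩ := hpick v {w1, t1} (by
      have := Finset.card_le_two (a := w1) (b := t1)
      omega)
    rw [Finset.mem_insert, Finset.mem_singleton, not_or] at hw2'
    obtain ⟨t2, ht2v, ht2⟩ := hcommon v w2
    have hwl : ∃ c u, G.Adj v c ∧ G.Adj v u ∧ G.Adj c u ∧ G.Adj c w2 ∧ w2 ≠ c ∧ w2 ≠ u := by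
      rcases hlink v w1 t1 w2 t2 hw1 ht1v ht1 hw2 ht2v ht2 with h | h | h | h
      · exact absurd h.symm hw2'.1
      · exact ⟨w1, t1, hw1, ht1v, ht1, by rw [h]; exact ht2.symm, hw2'.1, hw2'.2⟩
      · exact absurd h.symm hw2'.2
      · exact ⟨t1, w1, ht1v, hw1, ht1.symm, by rw [h]; exact ht2.symm, hw2'.2, hw2'.1⟩
    obtain ⟨c, u, hc, hu, hcu, hcw, hwc, hwu⟩ := hwl
    obtain ⟨w3, hw3, hw3'⟩ := hpick v {c, u, w2} (by
      have := Finset.card_le_three (a := c) (b := u) (c := w2)
      omega)
    rw [Finset.mem_insert, Finset.mem_insert, Finset.mem_singleton, not_or, not_or] at hw3'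
    obtain ⟨t3, ht3v, ht3⟩ := hcommon v w3
    have h3c : t3 = c := by
      rcases hlink v c u w3 t3 hc hu hcu hw3 ht3v ht3 with h | h | h | h
      · exact absurd h.symm hw3'.1
      · exact h.symm
      · exact absurd h.symm hw3'.2.1
      · rcases hlink v c w2 w3 t3 hc hw2 hcw hw3 ht3v ht3 with h' | h' | h' | h'
        · exact absurd h'.symm hw3'.1
        · exact h'.symm
        · exact absurd h'.symm hw3'.2.2
        · exact absurd (h'.trans h.symm) hwu
    rw [h3c] at ht3
    refine ⟨c, hc, ?_⟩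
    intro p q hp hq hpq
    by_contra hne
    push Not at hne
    have a1 := hlink v p q c u hp hq hpq hc hu hcu
    have a2 := hlink v p q c w2 hp hq hpq hc hw2 hcw
    have a3 := hlink v p q c w3 hp hq hpq hc hw3 ht3.symm
    have b1 : p = u ∨ q = u := by
      rcases a1 with h | h | h | h
      · exact absurd h hne.1
      · exact Or.inl h
      · exact absurd h hne.2
      · exact Or.inr h
    have b2 : p = w2 ∨ q = w2 := by
      rcases a2 with h | h | h | h
      · exact absurd h hne.1
      · exact Or.inl h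
      · exact absurd h hne.2
      · exact Or.inr h
    have b3 : p = w3 ∨ q = w3 := by
      rcases a3 with h | h | h | h
      · exact absurd h hne.1
      · exact Or.inl h
      · exact absurd h hne.2
      · exact Or.inr h
    rcases b1 with h | h
    · rcases b2 with h' | h'
      · exact hwu (h'.symm.trans h)
      · rcases b3 with h'' | h''
        · exact hw3'.2.1 (h''.symm.trans h)
        · exact hw3'.2.2 (h''.symm.trans h')
    · rcases b2 with h' | h'
      · rcases b3 with h'' | h''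
        · exact hw3'.2.2 (h''.symm.trans h')
        · exact hw3'.2.1 (h''.symm.trans h)
      · exact hwu (h'.symm.trans h)
  obtain ⟨c, hvc, hstar⟩ := hcenter
  have hIc : ∀ w, G.Adj v w → w ≠ c → G.Adj w c := by
    intro w hw hwc
    obtain ⟨t, htv, htw⟩ := hcommon v w
    rcases hstar w t hw htv htw with h | h
    · exact absurd h hwc
    · rwa [h] at htw
  set I := (G.neighborFinset v).erase c with hI
  have hIcard : I.card + 1 = G.degree v := by
    rw [hI, Finset.card_erase_of_mem ((G.mem_neighborFinset v c).mpr hvc),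
      G.card_neighborFinset_eq_degree]
    have := hdeg v
    omega
  have hImem : ∀ w, w ∈ I ↔ w ≠ c ∧ G.Adj v w := by
    intro w
    rw [hI, Finset.mem_erase, G.mem_neighborFinset]
  have hindep : ∀ w ∈ I, ∀ w' ∈ I, ¬ G.Adj w w' := by
    intro w hw w' hw' hadj
    rw [hImem] at hw hw'
    rcases hstar w w' hw.2 hw'.2 hadj with h | h
    · exact hw.1 h
    · exact hw'.1 h
  have hN : ∀ w ∈ I, I.card + G.degree w ≤ n := by
    intro w hw
    rw [← G.card_neighborFinset_eq_degree, ← Finset.card_union_of_disjoint]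
    · have := Finset.card_le_univ (I ∪ G.neighborFinset w)
      rwa [Fintype.card_fin] at this
    · rw [Finset.disjoint_left]
      intro w' hw' hw''
      rw [G.mem_neighborFinset] at hw''
      exact hindep w hw w' hw' hw''
  have hdv := hdeg v
  have hIpos : 0 < I.card := by omega
  obtain ⟨w0, hw0⟩ := Finset.card_pos.mp hIpos
  have hsize := hN w0 hw0
  have hw0deg := hdeg w0
  have hfull : ∀ w ∈ I, ∀ z, z ∉ I → G.Adj w z := by
    intro w hw z hz
    by_contra hnadj
    have h1 : (insert z (I ∪ G.neighborFinset w)).card ≤ n := by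
      have := Finset.card_le_univ (insert z (I ∪ G.neighborFinset w))
      rwa [Fintype.card_fin] at this
    rw [Finset.card_insert_of_notMem, Finset.card_union_of_disjoint,
      G.card_neighborFinset_eq_degree] at h1
    · have := hdeg w
      omega
    · rw [Finset.disjoint_left]
      intro w' hw' hw''
      rw [G.mem_neighborFinset] at hw''
      exact hindep w hw w' hw' hw''
    · rw [Finset.mem_union, G.mem_neighborFinset]
      exact fun h => h.elim hz hnadj
  -- a further vertex
  have hz : ∃ z, z ∉ I ∧ z ≠ v ∧ z ≠ c := by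
    by_contra hc
    push Not at hc
    have h1 : (Finset.univ : Finset (Fin n)) ⊆ I ∪ {v, c} := by
      intro z _
      by_cases h : z ∈ I
      · exact Finset.mem_union_left _ h
      · apply Finset.mem_union_right
        rw [Finset.mem_insert, Finset.mem_singleton]
        by_cases h' : z = v
        · exact Or.inl h'
        · exact Or.inr (hc z h h')
    have h2 := Finset.card_le_card h1
    have h3 := Finset.card_union_le I {v, c}
    have h4 := Finset.card_le_two (a := v) (b := c)
    rw [Finset.card_univ, Fintype.card_fin] at h2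
    omega
  obtain ⟨z, hzI, hzv, hzc⟩ := hz
  have hvz : ¬ G.Adj v z := by
    intro h
    exact hzI ((hImem z).mpr ⟨hzc, h⟩)
  obtain ⟨z', hzz', hz'I⟩ := hpick z I (by omega)
  have hz'v : z' ≠ v := by
    intro h
    rw [h] at hzz'
    exact hvz hzz'.symm
  have hvI : v ∉ I := by
    intro h
    exact (hImem v).mp h |>.2.ne rfl
  have hcI : c ∉ I := by
    intro h
    exact ((hImem c).mp h).1 rfl
  by_cases hz'c : z' = c
  · -- centered at c
    rw [hz'c] at hzz'
    obtain ⟨w1, hw1⟩ := Finset.card_pos.mp hIpos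
    have h2 : 0 < (I.erase w1).card := by
      rw [Finset.card_erase_of_mem hw1]
      omega
    obtain ⟨w2, hw2⟩ := Finset.card_pos.mp h2
    rw [Finset.mem_erase] at hw2
    exact contains (c := c) (a := z) (b := w1) (d := v) (e := w2)
      (hfull w1 hw1 z hzI).symm hzz'.symm (hfull w1 hw1 c hcI).symm hvc.symm
      (hfull w2 hw2.2 c hcI).symm (hfull w2 hw2.2 v hvI).symm hzv
      (fun h => hzI (h ▸ hw2.2)) (fun h => hvI (h ▸ hw1)) (fun h => hw2.1 h.symm) hG
  · -- centered at w0
    exact contains (c := w0) (a := z) (b := z') (d := v) (e := c)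
      hzz' (hfull w0 hw0 z hzI) (hfull w0 hw0 z' hz'I) (hfull w0 hw0 v hvI) (hfull w0 hw0 c hcI)
      hvc hzv hzc hz'v hz'c hG

/-- The Turan number of the bowtie is at most `n ^ 2 / 4 + 1` for `n ≥ 5`. -/
theorem extremal_le (n : ℕ) (hn : 5 ≤ n) : extremalNumber n bowtie ≤ n ^ 2 / 4 + 1 := by
  induction n, hn using Nat.le_induction with
  | base =>
    have h := (extremalNumber_le_iff (V := Fin 5) bowtie 7).mpr (fun G _ hG => five G hG)
    rw [Fintype.card_fin] at h
    exact h
  | succ n hn ih =>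
    have h := (extremalNumber_le_iff (V := Fin (n + 1)) bowtie ((n + 1) ^ 2 / 4 + 1)).mpr (by
      intro G _ hG
      obtain ⟨v, hv⟩ := min_degree (by omega) G hG
      have h1 := card_edgeFinset_deleteIncidenceSet_le_extremalNumber hG v
      rw [card_edgeFinset_deleteIncidenceSet, Fintype.card_fin, Nat.add_sub_cancel] at h1
      have h2 : n ^ 2 / 4 + (n + 1) / 2 ≤ (n + 1) ^ 2 / 4 := by
        rcases Nat.even_or_odd' n with ⟨k, hk | hk⟩
        · subst hk
          have e1 : (2 * k) ^ 2 / 4 = k ^ 2 := by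
            rw [show (2 * k) ^ 2 = 4 * k ^ 2 by ring]
            omega
          have e2 : (2 * k + 1) ^ 2 / 4 = k ^ 2 + k := by
            rw [show (2 * k + 1) ^ 2 = 4 * (k ^ 2 + k) + 1 by ring]
            omega
          rw [e1, e2]
          omega
        · subst hk
          have e1 : (2 * k + 1 + 1) ^ 2 / 4 = k ^ 2 + 2 * k + 1 := by
            rw [show (2 * k + 1 + 1) ^ 2 = 4 * (k ^ 2 + 2 * k + 1) by ring]
            omega
          have e2 : (2 * k + 1) ^ 2 / 4 = k ^ 2 + k := by
            rw [show (2 * k + 1) ^ 2 = 4 * (k ^ 2 + k) + 1 by ring]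
            omega
          rw [e1, e2]
          omega
      omega)
    rw [Fintype.card_fin] at h
    exact h

end Pool.Agent.Lib.MP_db21b4_co
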