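import Mathlib

set_option autoImplicit false

namespace Pool.Agent.Lib.MP_db21b4_co

/-- The bowtie: two triangles `0,1,2` and `0,3,4` sharing exactly the center `0`. -/
def bowtie : SimpleGraph (Fin 5) :=
  SimpleGraph.fromEdgeSet {s(0, 1), s(0, 2), s(1, 2), s(0, 3), s(0, 4), s(3, 4)}

instance : DecidableRel bowtie.Adj := by
  unfold bowtie
  infer_instance

theorem bowtie_adj_iff (i j : Fin 5) : bowtie.Adj i j ↔
    (i ≠ j ∧ (i = 0 ∨ j = 0 ∨ (i = 1 ∧ j = 2) ∨ (i = 2 ∧ j = 1) ∨ (i = 3 ∧ j = 4) ∨
      (i = 4 ∧ j = 3))) := by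
  revert i j
  decide

theorem contains {V : Type} {G : SimpleGraph V} {c a b d e : V} (hab : G.Adj a b)
    (hca : G.Adj c a) (hcb : G.Adj c b) (hcd : G.Adj c d) (hce : G.Adj c e) (hde : G.Adj d e)
    (h1 : a ≠ d) (h2 : a ≠ e) (h3 : b ≠ d) (h4 : b ≠ e) : ¬ bowtie.Free G := by
  intro hfree
  apply hfree
  have hf : ∀ i j : Fin 5, bowtie.Adj i j → G.Adj ((![c, a, b, d, e] : Fin 5 → V) i)
      ((![c, a, b, d, e] : Fin 5 → V) j) := by
    intro i j hij
    rw [bowtie_adj_iff] at hij
    obtain ⟨hne, h | h | h | h | h | h⟩ := hij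
    · subst h
      fin_cases j
      · exact absurd rfl hne
      · exact hca
      · exact hcb
      · exact hcd
      · exact hce
    · subst h
      fin_cases i
      · exact absurd rfl hne
      · exact hca.symm
      · exact hcb.symm
      · exact hcd.symm
      · exact hce.symm
    · obtain ⟨rfl, rfl⟩ := h
      exact hab
    · obtain ⟨rfl, rfl⟩ := h
      exact hab.symm
    · obtain ⟨rfl, rfl⟩ := h
      exact hde
    · obtain ⟨rfl, rfl⟩ := h
      exact hde.symm
  have hinj : Function.Injective (![c, a, b, d, e] : Fin 5 → V) := by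
    intro i j hij
    have e1 := hca.ne
    have e2 := hcb.ne
    have e3 := hcd.ne
    have e4 := hce.ne
    have e5 := hab.ne
    have e6 := hde.ne
    have e1' := e1.symm
    have e2' := e2.symm
    have e3' := e3.symm
    have e4' := e4.symm
    have e5' := e5.symm
    have e6' := e6.symm
    have h1' := h1.symm
    have h2' := h2.symm
    have h3' := h3.symm
    have h4' := h4.symm
    fin_cases i <;> fin_cases j <;> first | rfl | (exfalso; simp at hij; contradiction)
  exact ⟨⟨⟨![c, a, b, d, e], fun {i j} h => hf i j h⟩, hinj⟩⟩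

/-- The boolean form of the case of five vertices. -/
theorem base_bool : ∀ x01 x02 x03 x04 x12 x13 x14 x23 x24 x34 : Bool,
    8 ≤ x01.toNat + x02.toNat + x03.toNat + x04.toNat + x12.toNat + x13.toNat + x14.toNat +
      x23.toNat + x24.toNat + x34.toNat →
    ((x01 && x02 && x03 && x04 && ((x12 && x34) || (x13 && x24) || (x14 && x23))) ||
     (x01 && x12 && x13 && x14 && ((x02 && x34) || (x03 && x24) || (x04 && x23))) ||
     (x02 && x12 && x23 && x24 && ((x01 && x34) || (x03 && x14) || (x04 && x13))) ||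
     (x03 && x13 && x23 && x34 && ((x01 && x24) || (x02 && x14) || (x04 && x12))) ||
     (x04 && x14 && x24 && x34 && ((x01 && x23) || (x02 && x13) || (x03 && x12)))) = true := by
  decide

end Pool.Agent.Lib.MP_db21b4_co
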